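import Mathlib

namespace Pool.Agent.Results.MP_a13529_nt.Square

open Finset

/-- The local factor `(p^(a+1) + (-1)^a) / (p+1)`. -/
def B (p a : ℕ) : ℕ := (((p : ℤ) ^ (a + 1) + (-1) ^ a) / (p + 1)).toNat

/-- The alternating sum-of-divisors function. -/
def β (n : ℕ) : ℕ := ∏ p ∈ n.primeFactors, B p (n.factorization p)

lemma Bspec (p a : ℕ) (hp : 1 ≤ p) : ((p : ℤ) + 1) * B p a = (p : ℤ) ^ (a + 1) + (-1) ^ a := by
  have h1 : ((p : ℤ) + 1) ∣ (p : ℤ) ^ (a + 1) + (-1) ^ a := by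
    have := sub_dvd_pow_sub_pow (p : ℤ) (-1) (a + 1)
    rw [sub_neg_eq_add, pow_succ (-1 : ℤ)] at this
    simpa using this
  have h2 : (0 : ℤ) ≤ (p : ℤ) ^ (a + 1) + (-1) ^ a := by
    have h3 : (1 : ℤ) ≤ (p : ℤ) ^ (a + 1) := one_le_pow₀ (by exact_mod_cast hp)
    rcases neg_one_pow_eq_or ℤ a with h | h <;> rw [h] <;> omega
  rw [B, Int.toNat_of_nonneg (Int.ediv_nonneg h2 (by positivity)), Int.mul_ediv_cancel' h1]

lemma Brec (p a : ℕ) (hp : 1 ≤ p) : B p (a + 1) + B p a = p ^ (a + 1) := by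
  have h1 := Bspec p a hp
  have h2 := Bspec p (a + 1) hp
  have h3 : ((p : ℤ) + 1) * (B p (a + 1) + B p a) = ((p : ℤ) + 1) * (p : ℤ) ^ (a + 1) := by
    rw [mul_add, h1, h2]; ring
  have h4 := mul_left_cancel₀ (by positivity) h3
  exact_mod_cast h4

lemma Bzero (p : ℕ) (hp : 1 ≤ p) : B p 0 = 1 := by
  have h1 := Bspec p 0 hp
  have h3 : ((p : ℤ) + 1) * (B p 0) = ((p : ℤ) + 1) * 1 := by rw [h1]; ring
  have h4 := mul_left_cancel₀ (by positivity) h3
  exact_mod_cast h4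

lemma Ble (p a : ℕ) (hp : 1 ≤ p) : B p a ≤ p ^ a := by
  cases a with
  | zero => simp [Bzero p hp]
  | succ a => have := Brec p a hp; omega

lemma Bpar (p a : ℕ) (hp : Odd p) : (B p a + a) % 2 = 1 := by
  induction a with
  | zero => simp [Bzero p hp.pos]
  | succ a ih =>
    have h1 := Brec p a hp.pos
    have h2 : Odd (p ^ (a + 1)) := hp.pow
    rw [Nat.odd_iff] at h2
    omega

lemma Bup (p a : ℕ) (hp : 1 ≤ p) (ha : 1 ≤ a) :
    (p : ℤ) ^ 2 * B p a ≤ ((p : ℤ) ^ 2 - p + 1) * (p : ℤ) ^ a := by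
  have h1 := Bspec p a hp
  have hp' : (1 : ℤ) ≤ p := by exact_mod_cast hp
  refine le_of_mul_le_mul_left ?_ (show (0 : ℤ) < p + 1 by positivity)
  have e1 : ((p : ℤ) + 1) * ((p : ℤ) ^ 2 * B p a) = (p : ℤ) ^ 2 * ((p : ℤ) ^ (a + 1) + (-1) ^ a) := by
    rw [← h1]; ring
  have e2 : ((p : ℤ) + 1) * (((p : ℤ) ^ 2 - p + 1) * (p : ℤ) ^ a) =
      (p : ℤ) ^ 2 * (p : ℤ) ^ (a + 1) + (p : ℤ) ^ a := by ring
  rw [e1, e2, mul_add]
  rcases Nat.even_or_odd a with h | h
  · rw [h.neg_one_pow, mul_one]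
    have : 2 ≤ a := by obtain ⟨r, hr⟩ := h; omega
    have := pow_le_pow_right₀ hp' this
    omega
  · rw [h.neg_one_pow]
    have h2 : (0 : ℤ) ≤ (p : ℤ) ^ a := by positivity
    have h3 : (0 : ℤ) ≤ (p : ℤ) ^ 2 := by positivity
    omega

lemma rest_le (N : ℕ) (S : Finset ℕ) (hS : S ⊆ N.primeFactors) :
    ∏ p ∈ S, B p (N.factorization p) ≤ ∏ p ∈ S, p ^ N.factorization p :=
  Finset.prod_le_prod' fun _ hp => Ble _ _ (Nat.prime_of_mem_primeFactors (hS hp)).pos

lemma self_eq (N : ℕ) (hN : N ≠ 0) : ∏ p ∈ N.primeFactors, p ^ N.factorization p = N := by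
  conv_rhs => rw [← Nat.prod_factorization_pow_eq_self hN, Finsupp.prod, Nat.support_factorization]

lemma fac_pos {N p : ℕ} (hp : p ∈ N.primeFactors) : 1 ≤ N.factorization p :=
  (Nat.prime_of_mem_primeFactors hp).factorization_pos_of_dvd
    (Nat.mem_primeFactors.mp hp).2.2 (Nat.dvd_of_mem_primeFactors hp)

lemma odd_beta (n : ℕ) (hn : 0 < n) (h : 2 * β (β n) = n) : Odd (β n) := by
  by_contra hodd
  rw [Nat.not_odd_iff_even] at hodd
  have hN0 : β n ≠ 0 := by
    intro h0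
    have : n = 2 := by rw [← h, h0]; simp [β]
    subst this
    rw [β, Nat.prime_two.primeFactors, Finset.prod_singleton, Nat.prime_two.factorization_self] at h0
    revert h0
    decide
  have h2n : 2 ∈ n.primeFactors := Nat.mem_primeFactors.mpr ⟨Nat.prime_two, ⟨_, h.symm⟩, hn.ne'⟩
  have h2N : 2 ∈ (β n).primeFactors :=
    Nat.mem_primeFactors.mpr ⟨Nat.prime_two, hodd.two_dvd, hN0⟩
  have a1 := Finset.mul_prod_erase _ (fun p => B p (n.factorization p)) h2n
  have a2 := Finset.mul_prod_erase _ (fun p => p ^ n.factorization p) h2n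
  have a3 := rest_le n _ (Finset.erase_subset 2 n.primeFactors)
  have a4 := Bspec 2 (n.factorization 2) (by norm_num)
  have a5 := fac_pos h2n
  rw [self_eq n hn.ne'] at a2
  change _ = β n at a1
  generalize β n = N at *
  generalize (∏ p ∈ n.primeFactors.erase 2, B p (n.factorization p)) = R at *
  generalize (∏ p ∈ n.primeFactors.erase 2, p ^ n.factorization p) = m at *
  generalize n.factorization 2 = a at *
  have b1 := Finset.mul_prod_erase _ (fun p => B p (N.factorization p)) h2N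
  have b2 := Finset.mul_prod_erase _ (fun p => p ^ N.factorization p) h2N
  have b4 := Bup 2 (N.factorization 2) (by norm_num) (fac_pos h2N)
  rw [self_eq N hN0] at b2
  change _ = β N at b1
  have b5 : 4 * B 2 (N.factorization 2) ≤ 3 * 2 ^ N.factorization 2 := by
    norm_num at b4
    exact_mod_cast b4
  have hm : 0 < m := by
    rcases Nat.eq_zero_or_pos m with h0 | h0
    · rw [h0] at a2; omega
    · exact h0
  rcases Nat.even_or_odd a with ha | ha
  · rw [ha.neg_one_pow] at a4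
    have a6 : 3 * B 2 a = 2 * 2 ^ a + 1 := by
      rw [pow_succ] at a4
      norm_num at a4
      zify
      linarith
    have a7 : 2 ≤ 2 ^ a := by simpa using Nat.pow_le_pow_right (show 0 < 2 by norm_num) a5
    have ht1 : B 2 a ≠ 1 := by omega
    have hq := Nat.minFac_prime ht1
    have hqt : (B 2 a).minFac ≤ B 2 a := Nat.minFac_le (by omega)
    have hqd := Nat.minFac_dvd (B 2 a)
    generalize (B 2 a).minFac = q at *
    have hq2 : q ≠ 2 := by
      rintro rfl
      omega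
    have hqN : q ∈ N.primeFactors.erase 2 :=
      Finset.mem_erase.mpr ⟨hq2, Nat.mem_primeFactors.mpr ⟨hq, a1 ▸ hqd.mul_right R, hN0⟩⟩
    have c1 := Finset.mul_prod_erase _ (fun p => B p (N.factorization p)) hqN
    have c2 := Finset.mul_prod_erase _ (fun p => p ^ N.factorization p) hqN
    have c3 := rest_le N _ ((Finset.erase_subset q _).trans (Finset.erase_subset 2 N.primeFactors))
    have c4 := Bup q (N.factorization q) hq.pos (fac_pos (Finset.mem_of_mem_erase hqN))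
    rw [← c1] at b1
    rw [← c2] at b2
    generalize (∏ p ∈ (N.primeFactors.erase 2).erase q, B p (N.factorization p)) = R' at *
    generalize (∏ p ∈ (N.primeFactors.erase 2).erase q, p ^ N.factorization p) = m' at *
    obtain ⟨s, rfl⟩ : ∃ s, q = s + 1 := ⟨q - 1, by have := hq.pos; omega⟩
    have c5 : (s + 1) ^ 2 * B (s + 1) (N.factorization (s + 1)) ≤
        (s ^ 2 + s + 1) * (s + 1) ^ N.factorization (s + 1) := by
      zify
      push_cast at c4
      linarith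
    have d1 : (4 * B 2 (N.factorization 2)) * (((s + 1) ^ 2 * B (s + 1) (N.factorization (s + 1))) * R') ≤
        (3 * 2 ^ N.factorization 2) * (((s ^ 2 + s + 1) * (s + 1) ^ N.factorization (s + 1)) * m') :=
      Nat.mul_le_mul b5 (Nat.mul_le_mul c5 c3)
    have d2 : 4 * (s + 1) ^ 2 * β N ≤ 3 * (s ^ 2 + s + 1) * N := by
      calc 4 * (s + 1) ^ 2 * β N = _ := by rw [← b1]; ring
        _ ≤ _ := d1
        _ = 3 * (s ^ 2 + s + 1) * (2 ^ N.factorization 2 *
            ((s + 1) ^ N.factorization (s + 1) * m')) := by ring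
        _ = _ := by rw [b2]
    have d3 : N ≤ B 2 a * m := by rw [← a1]; exact Nat.mul_le_mul_left _ a3
    have d4 : ((s + 1) ^ 2 * (2 * 2 ^ a)) * m ≤ ((s ^ 2 + s + 1) * (3 * B 2 a)) * m := by
      calc ((s + 1) ^ 2 * (2 * 2 ^ a)) * m = 2 * (s + 1) ^ 2 * (2 ^ a * m) := by ring
        _ = 4 * (s + 1) ^ 2 * β N := by rw [a2, ← h]; ring
        _ ≤ 3 * (s ^ 2 + s + 1) * N := d2
        _ ≤ 3 * (s ^ 2 + s + 1) * (B 2 a * m) := Nat.mul_le_mul_left _ d3
        _ = _ := by ring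
    have d5 := Nat.le_of_mul_le_mul_right d4 hm
    have hs : 1 ≤ s := by have := hq.two_le; omega
    generalize B 2 a = t at *
    generalize 2 ^ a = x at *
    have d6 : s * (s + 1) ≤ s * t := Nat.mul_le_mul_left _ hqt
    rw [a6] at d5
    nlinarith
  · rw [ha.neg_one_pow] at a4
    have a6 : 3 * B 2 a + 1 = 2 * 2 ^ a := by
      rw [pow_succ] at a4
      norm_num at a4
      zify
      linarith
    have c3 := rest_le N _ (Finset.erase_subset 2 N.primeFactors)
    have d1 := Nat.mul_le_mul b5 c3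
    have d2 : 4 * β N ≤ 3 * N := by
      calc 4 * β N = _ := by rw [← b1]; ring
        _ ≤ _ := d1
        _ = 3 * (2 ^ N.factorization 2 * ∏ p ∈ N.primeFactors.erase 2, p ^ N.factorization p) := by ring
        _ = _ := by rw [b2]
    have d3 : N ≤ B 2 a * m := by rw [← a1]; exact Nat.mul_le_mul_left _ a3
    have d4 : (3 * B 2 a + 1) * m = 4 * β N := by
      rw [a6, mul_assoc, a2, ← h]; ring
    nlinarith

lemma sq (n : ℕ) (hn : 0 < n) (h : 2 * β (β n) = n) :
    Odd (β n) ∧ ∀ p : ℕ, p.Prime → p ≠ 2 → Even (n.factorization p) := by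
  have h1 := odd_beta n hn h
  refine ⟨h1, fun p hp h2 => ?_⟩
  by_cases hm : p ∈ n.primeFactors
  · have h3 := h1.of_dvd_nat (Finset.dvd_prod_of_mem (fun p => B p (n.factorization p)) hm)
    have h4 := Bpar p (n.factorization p) (hp.odd_of_ne_two h2)
    rw [Nat.odd_iff] at h3
    rw [Nat.even_iff]
    omega
  · rw [← Nat.support_factorization, Finsupp.notMem_support_iff] at hm
    rw [hm]
    exact Even.zero

lemma Bstep (s e : ℕ) : B (s + 1) (e + 2) = B (s + 1) e + s * (s + 1) ^ (e + 1) := by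
  have h1 := Brec (s + 1) e (by omega)
  have h2 := Brec (s + 1) (e + 1) (by omega)
  have h3 : (s + 1) ^ (e + 1 + 1) = (s + 1) ^ (e + 1) + s * (s + 1) ^ (e + 1) := by ring
  change B (s + 1) (e + 1 + 1) = _
  omega

lemma Bone (s : ℕ) : B (s + 1) 1 = s := by
  have h1 := Brec (s + 1) 0 (by omega)
  rw [Bzero _ (by omega)] at h1
  simpa using h1

lemma Bodd1 (s : ℕ) (hs : Odd (s + 1)) (f : ℕ) :
    ∃ G, B (s + 1) (2 * f + 1) = s * G ∧ G % 2 = (f + 1) % 2 ∧ f + 1 ≤ G := by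
  induction f with
  | zero => exact ⟨1, by simp [Bone], rfl, le_rfl⟩
  | succ f ih =>
    obtain ⟨G, h1, h2, h3⟩ := ih
    have h4 : Odd ((s + 1) ^ (2 * f + 1 + 1)) := hs.pow
    rw [Nat.odd_iff] at h4
    refine ⟨G + (s + 1) ^ (2 * f + 1 + 1), ?_, by omega, by omega⟩
    rw [show 2 * (f + 1) + 1 = 2 * f + 1 + 2 by ring, Bstep, h1]
    ring

lemma Bodd3 (s g : ℕ) : (s + 1) ^ 2 + 1 ∣ B (s + 1) (4 * g + 3) := by
  induction g with
  | zero =>
    refine ⟨s, ?_⟩
    rw [show 4 * 0 + 3 = 1 + 2 by ring, Bstep, Bone]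
    ring
  | succ g ih =>
    rw [show 4 * (g + 1) + 3 = 4 * g + 3 + 2 + 2 by ring, Bstep, Bstep, add_assoc]
    exact Dvd.dvd.add ih ⟨s * (s + 1) ^ (4 * g + 3 + 1), by ring⟩

lemma local_form (p e c : ℕ) (hp : p.Prime) (h2 : p ≠ 2) (he : 1 ≤ e) (hd : B p e ∣ 2 ^ c) :
    e = 1 ∧ (p ∣ 2 ^ 32 - 1 ∨ (2 ^ 64 ≤ p ∧ p % 2 ^ 64 = 1)) := by
  have ho := hp.odd_of_ne_two h2
  have h3 : 3 ≤ p := by have := hp.two_le; omega
  obtain ⟨s, rfl⟩ : ∃ s, p = s + 1 := ⟨p - 1, by omega⟩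
  have pw : ∀ x, x ∣ B (s + 1) e → x % 2 = 1 → x = 1 := by
    intro x hx hx2
    obtain ⟨k, -, rfl⟩ := (Nat.dvd_prime_pow Nat.prime_two).mp (hx.trans hd)
    cases k with
    | zero => rfl
    | succ k => rw [pow_succ] at hx2; omega
  have he1 : e = 1 := by
    have h4 : e % 2 = 0 ∨ e % 4 = 1 ∨ e % 4 = 3 := by omega
    rcases h4 with h4 | h4 | h4
    · exfalso
      have m1 := Bpar (s + 1) e ho
      have m2 := pw _ dvd_rfl (by omega)
      obtain ⟨e', rfl⟩ : ∃ e', e = e' + 2 := ⟨e - 2, by omega⟩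
      rw [Bstep] at m2
      have m3 : 0 < (s + 1) ^ (e' + 1) := by positivity
      nlinarith
    · obtain ⟨G, g1, g2, g3⟩ := Bodd1 s ho (e / 2)
      rw [show 2 * (e / 2) + 1 = e by omega] at g1
      have := pw G ⟨s, by rw [g1, mul_comm]⟩ (by omega)
      omega
    · exfalso
      have m1 := Bodd3 s (e / 4)
      rw [show 4 * (e / 4) + 3 = e by omega] at m1
      obtain ⟨r, hr⟩ := ho
      have m2 : (s + 1) ^ 2 + 1 = 2 * (2 * (r ^ 2 + r) + 1) := by rw [hr]; ring
      have := pw (2 * (r ^ 2 + r) + 1) (Dvd.dvd.trans ⟨2, by rw [m2]; ring⟩ m1) (by omega)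
      omega
  refine ⟨he1, ?_⟩
  rw [he1, Bone] at hd
  obtain ⟨k, -, rfl⟩ := (Nat.dvd_prime_pow Nat.prime_two).mp hd
  have hk : k ≠ 0 := by rintro rfl; omega
  obtain ⟨i, rfl⟩ := Nat.pow_of_pow_add_prime (by norm_num) hk hp
  by_cases hi : i ≤ 5
  · left
    interval_cases i
    · decide
    · decide
    · decide
    · decide
    · decide
    · exact absurd hp (by norm_num)
  · right
    have m1 : 2 ^ 6 ≤ 2 ^ i := Nat.pow_le_pow_right (by norm_num) (by omega)
    have m2 : 2 ^ 64 ∣ 2 ^ 2 ^ i := pow_dvd_pow 2 (by simpa using m1)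
    have m3 := Nat.le_of_dvd (by positivity) m2
    omega

lemma arith (K t u x : ℕ) (a6 : 3 * t = x + 1 ∨ 3 * t + 1 = x) (m2 : K ∣ x)
    (m3 : t % K = u) (hu : 3 * u + 1 < K) (hu0 : 1 ≤ u) : False := by
  have h1 := Nat.div_add_mod t K
  rw [m3] at h1
  have h2 : K * (3 * (t / K)) = 3 * (K * (t / K)) := by ring
  rcases a6 with h | h
  · have e : x = K * (3 * (t / K)) + (3 * u - 1) := by omega
    rw [e] at m2
    have h3 := Nat.le_of_dvd (by omega) ((Nat.dvd_add_right (Dvd.intro _ rfl)).mp m2)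
    omega
  · have e : x = K * (3 * (t / K)) + (3 * u + 1) := by omega
    rw [e] at m2
    have h3 := Nat.le_of_dvd (by omega) ((Nat.dvd_add_right (Dvd.intro _ rfl)).mp m2)
    omega

lemma fin_check : ∀ c ≤ 32, B 2 (c + 1) ∣ 2 ^ 32 - 1 →
    c + 1 ∈ ({1, 2, 3, 7, 15, 31} : Finset ℕ) := by
  decide +kernel

lemma pow_two (a : ℕ) (h : 2 * β (β (2 ^ a)) = 2 ^ a) : a ∈ ({1, 2, 3, 7, 15, 31} : Finset ℕ) := by
  have hodd := (sq _ (by positivity) h).1
  obtain ⟨c, rfl⟩ : ∃ c, a = c + 1 := by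
    cases a with
    | zero => omega
    | succ c => exact ⟨c, rfl⟩
  have hb : β (2 ^ (c + 1)) = B 2 (c + 1) := by
    rw [β, Nat.primeFactors_prime_pow (by omega) Nat.prime_two, Finset.prod_singleton,
      Nat.prime_two.factorization_pow, Finsupp.single_eq_same]
  rw [hb] at h hodd
  have ht : β (B 2 (c + 1)) = 2 ^ c := by rw [pow_succ] at h; omega
  have a4 := Bspec 2 (c + 1) (by norm_num)
  have a6 : 3 * B 2 (c + 1) = 2 ^ (c + 2) + 1 ∨ 3 * B 2 (c + 1) + 1 = 2 ^ (c + 2) := by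
    rcases neg_one_pow_eq_or ℤ (c + 1) with h1 | h1 <;> rw [h1] at a4
    · left; zify; push_cast at a4; linarith
    · right; zify; push_cast at a4; linarith
  have key : B 2 (c + 1) ∣ 2 ^ 32 - 1 := by
    generalize B 2 (c + 1) = t at *
    have ht0 : t ≠ 0 := hodd.pos.ne'
    have hl : ∀ p ∈ t.primeFactors, t.factorization p = 1 ∧
        (p ∣ 2 ^ 32 - 1 ∨ (2 ^ 64 ≤ p ∧ p % 2 ^ 64 = 1)) := by
      intro p hp
      refine local_form p _ c (Nat.prime_of_mem_primeFactors hp) ?_ (fac_pos hp) ?_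
      · rintro rfl
        have := Nat.dvd_of_mem_primeFactors hp
        rw [Nat.odd_iff] at hodd
        omega
      · rw [← ht]
        exact Finset.dvd_prod_of_mem (fun p => B p (t.factorization p)) hp
    have e1 : ∏ p ∈ t.primeFactors, p = t := by
      conv_rhs => rw [← self_eq t ht0]
      exact Finset.prod_congr rfl fun p hp => by rw [(hl p hp).1, pow_one]
    have e2 := Finset.prod_filter_mul_prod_filter_not t.primeFactors (fun p => p ∣ 2 ^ 32 - 1)
      (fun p => p)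
    have e3 : ∏ p ∈ t.primeFactors.filter (fun p => p ∣ 2 ^ 32 - 1), p ∣ 2 ^ 32 - 1 :=
      Finset.prod_primes_dvd _
        (fun p hp => (Nat.prime_of_mem_primeFactors (Finset.mem_filter.mp hp).1).prime)
        (fun p hp => (Finset.mem_filter.mp hp).2)
    have e4 : (∏ p ∈ t.primeFactors.filter (fun p => ¬ p ∣ 2 ^ 32 - 1), p) % 2 ^ 64 = 1 := by
      refine Finset.prod_induction _ (fun x => x % 2 ^ 64 = 1) ?_ (by norm_num) ?_
      · intro x y hx hy
        rw [Nat.mul_mod, hx, hy]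
        norm_num
      · intro p hp
        obtain ⟨m1, m2⟩ := Finset.mem_filter.mp hp
        exact (((hl p m1).2).resolve_left m2).2
    rw [e1] at e2
    generalize (∏ p ∈ t.primeFactors.filter (fun p => p ∣ 2 ^ 32 - 1), p) = u at *
    generalize (∏ p ∈ t.primeFactors.filter (fun p => ¬ p ∣ 2 ^ 32 - 1), p) = v at *
    by_cases hv : v = 1
    · rw [← e2, hv, mul_one]
      exact e3
    exfalso
    have hu := Nat.le_of_dvd (by norm_num) e3
    have hu0 : 1 ≤ u := by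
      rcases Nat.eq_zero_or_pos u with h0 | h0
      · rw [h0] at e2; omega
      · exact h0
    have hv2 : 2 ^ 64 ≤ v := by omega
    have ht2 : v ≤ t := by rw [← e2]; exact Nat.le_mul_of_pos_left _ hu0
    have hc : 64 ≤ c + 2 := by
      by_contra hc
      have : 2 ^ (c + 2) ≤ 2 ^ 64 := Nat.pow_le_pow_right (by norm_num) (by omega)
      omega
    have m2 : 2 ^ 64 ∣ 2 ^ (c + 2) := pow_dvd_pow 2 hc
    have m3 : t % 2 ^ 64 = u := by
      rw [← e2, Nat.mul_mod, e4, mul_one, Nat.mod_mod, Nat.mod_eq_of_lt (by omega)]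
    exact arith _ t u _ a6 m2 m3 (lt_of_le_of_lt (Nat.add_le_add_right (Nat.mul_le_mul_left 3 hu) 1)
      (by norm_num)) hu0
  have hc : c ≤ 32 := by
    by_contra hc
    have m1 := Nat.le_of_dvd (by norm_num) key
    have m2 : 2 ^ 35 ≤ 2 ^ (c + 2) := Nat.pow_le_pow_right (by norm_num) (by omega)
    clear key h hodd hb ht a4
    generalize B 2 (c + 1) = t at m1 a6
    generalize 2 ^ (c + 2) = x at m2 a6
    norm_num at m1 m2
    omega
  exact fin_check c hc key

theorem result (n : ℕ) (hn : 0 < n) (h : 2 * β (β n) = n) :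
    Odd (β n) ∧ (∀ p : ℕ, p.Prime → p ≠ 2 → Even (n.factorization p)) ∧
      ∀ a : ℕ, n = 2 ^ a → a ∈ ({1, 2, 3, 7, 15, 31} : Finset ℕ) :=
  ⟨(sq n hn h).1, (sq n hn h).2, fun a ha => pow_two a (ha ▸ h)⟩

end Pool.Agent.Results.MP_a13529_nt.Square
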